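import Pool.Agent.H93.BD.Targets

/-!
Weighted orthogonality in `X m` (row ORX of bdc_modules)
-/

set_option autoImplicit false

open MeasureTheory
open scoped ENNReal NNReal

namespace Pool.Agent.H37.BD

open Pool.Agent.H93.BD

theorem norm_ph {m : ℕ} (z x : X m) : ‖ph z x‖ = 1 := by
  unfold ph
  exact Complex.norm_exp_ofReal_mul_I _

theorem FI_cont {m : ℕ} {g : X m → ℂ} (hg : Integrable g) : Continuous (FI g) := by
  unfold FI
  refine continuous_of_dominated (bound := fun z => ‖g z‖) ?_ ?_ hg.norm ?_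
  · intro x
    refine hg.aestronglyMeasurable.mul (Continuous.aestronglyMeasurable ?_)
    unfold ph
    fun_prop
  · intro x
    refine Filter.Eventually.of_forall fun z => ?_
    rw [norm_mul, norm_ph, mul_one]
  · refine Filter.Eventually.of_forall fun z => ?_
    unfold ph
    fun_prop

/-- the partial Fourier integral in the last variable -/
noncomputable def PF {m : ℕ} (g : X m → ℂ) (w : ℝ) (ξ : E m) : ℂ :=
  ∫ b : ℝ, g (ξ, b) * Complex.exp (((b * w : ℝ) : ℂ) * Complex.I)

theorem PF_int_aux {m : ℕ} {g : X m → ℂ} (hg : Integrable g) (w : ℝ) :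
    Integrable (fun z : X m => g z * Complex.exp (((z.2 * w : ℝ) : ℂ) * Complex.I)) := by
  refine hg.mul_bdd (c := 1) ?_ ?_
  · exact Continuous.aestronglyMeasurable (by fun_prop)
  · exact Filter.Eventually.of_forall fun z => (Complex.norm_exp_ofReal_mul_I _).le

theorem PF_int {m : ℕ} {g : X m → ℂ} (hg : Integrable g) (w : ℝ) : Integrable (PF g w) := by
  have h := PF_int_aux hg w
  exact h.integral_prod_left

theorem FI_eq {m : ℕ} {g : X m → ℂ} (hg : Integrable g) (y : E m) (w : ℝ) :
    FI g (y, w) =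
      ∫ ξ, PF g w ξ * Complex.exp (((inner ℝ ξ y : ℝ) : ℂ) * Complex.I) := by
  have h1 : Integrable (fun z : X m => g z * ph z (y, w)) := by
    refine hg.mul_bdd (c := 1) ?_ ?_
    · refine Continuous.aestronglyMeasurable ?_
      unfold ph
      fun_prop
    · exact Filter.Eventually.of_forall fun z => (norm_ph _ _).le
  unfold FI
  have h2 := integral_prod _ h1
  rw [← Measure.volume_eq_prod] at h2
  rw [h2]
  refine integral_congr_ae (Filter.Eventually.of_forall fun ξ => ?_)
  show (∫ b : ℝ, g (ξ, b) * ph (ξ, b) (y, w)) = PF g w ξ * _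
  unfold PF
  rw [← integral_mul_const]
  refine integral_congr_ae (Filter.Eventually.of_forall fun b => ?_)
  show g (ξ, b) * ph (ξ, b) (y, w) = g (ξ, b) * _ * _
  rw [mul_assoc, ← Complex.exp_add]
  unfold ph
  push_cast
  congr 2
  ring

theorem pf_ORX (hORT : T_ORT) : T_ORX := by
  classical
  intro m C0 M
  obtain ⟨C, hC⟩ := hORT m C0 (m + 2) M (by omega)
  refine ⟨C, fun R hR ι B c g hg hM x => ?_⟩
  -- the weight splits
  set a : ℝ → ℝ≥0∞ := fun w =>
    ENNReal.ofReal ((R ^ m * R)⁻¹ * ((1 + |x.2 - w| / R) ^ (m + 2))⁻¹) with ha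
  set p : E m → ℝ≥0∞ := fun y => ENNReal.ofReal (((1 + ‖x.1 - y‖ / R) ^ (m + 2))⁻¹) with hp
  have hk : ∀ y w, kw m R (x - (y, w)) = a w * p y := by
    intro y w
    unfold kw gw
    simp only [Prod.fst_sub, Prod.snd_sub, smul_zero, add_zero, ha, hp]
    rw [← ENNReal.ofReal_mul (by positivity)]
    congr 1
    ring
  have ham : Measurable a := by
    simp only [ha]
    fun_prop
  have hpm : Measurable p := by
    simp only [hp]
    fun_prop
  -- the general formula
  have key : ∀ F : X m → ℝ≥0∞, Measurable F →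
      cv F (kw m R) x = ∫⁻ w, a w * ∫⁻ y, F (y, w) * p y := by
    intro F hF
    unfold cv
    have hm : Measurable fun z : X m => F z * kw m R (x - z) := by
      have : (fun z : X m => F z * kw m R (x - z)) = fun z => F z * (a z.2 * p z.1) := by
        funext z
        rw [← hk]
      rw [this]
      exact hF.mul ((ham.comp measurable_snd).mul (hpm.comp measurable_fst))
    rw [Measure.volume_eq_prod, lintegral_prod_symm _ hm.aemeasurable]
    refine lintegral_congr fun w => ?_
    have h1 : Measurable fun y => F (y, w) * p y :=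
      (hF.comp (measurable_id.prodMk measurable_const)).mul hpm
    rw [← lintegral_const_mul _ h1]
    refine lintegral_congr fun y => ?_
    rw [hk]
    ring
  have hcont : ∀ β ∈ B, Continuous (FI (g β)) := fun β hβ => FI_cont (hg β hβ).1
  have hFm : Measurable fun z => ‖∑ β ∈ B, FI (g β) z‖ₑ ^ (2 : ℝ) := by
    refine (Measurable.enorm ?_).pow_const _
    exact (continuous_finsetSum _ hcont).measurable
  have hFm' : ∀ β ∈ B, Measurable fun z => ‖FI (g β) z‖ₑ ^ (2 : ℝ) := fun β hβ =>
    (hcont β hβ).measurable.enorm.pow_const _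
  rw [key _ hFm]
  have h3 : ∀ w, (∫⁻ y, ‖∑ β ∈ B, FI (g β) (y, w)‖ₑ ^ (2 : ℝ) * p y) ≤
      ENNReal.ofReal C * ∑ β ∈ B, ∫⁻ y, ‖FI (g β) (y, w)‖ₑ ^ (2 : ℝ) * p y := by
    intro w
    have h := hC R hR ι B c (fun β => PF (g β) w) (fun β hβ => ⟨PF_int (hg β hβ).1 w, ?_⟩) hM x.1
    · refine le_trans (le_of_eq ?_) (h.trans (le_of_eq ?_))
      · refine lintegral_congr fun y => ?_
        congr 3
        exact Finset.sum_congr rfl fun β hβ => FI_eq (hg β hβ).1 y w
      · congr 1
        refine Finset.sum_congr rfl fun β hβ => ?_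
        refine lintegral_congr fun y => ?_
        rw [FI_eq (hg β hβ).1 y w]
    · intro ξ hξ
      by_contra hcon
      refine hξ ?_
      show PF (g β) w ξ = 0
      unfold PF
      have : ∀ b : ℝ, g β (ξ, b) * Complex.exp (((b * w : ℝ) : ℂ) * Complex.I) = 0 := by
        intro b
        by_cases h0 : g β (ξ, b) = 0
        · rw [h0, zero_mul]
        · exact absurd ((hg β hβ).2 _ h0) hcon
      simp only [this, integral_zero]
  calc ∫⁻ w, a w * ∫⁻ y, ‖∑ β ∈ B, FI (g β) (y, w)‖ₑ ^ (2 : ℝ) * p y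
      ≤ ∫⁻ w, a w * (ENNReal.ofReal C * ∑ β ∈ B, ∫⁻ y, ‖FI (g β) (y, w)‖ₑ ^ (2 : ℝ) * p y) := by
        gcongr with w
        exact h3 w
    _ = ∫⁻ w, ENNReal.ofReal C * ∑ β ∈ B, a w * ∫⁻ y, ‖FI (g β) (y, w)‖ₑ ^ (2 : ℝ) * p y := by
        refine lintegral_congr fun w => ?_
        rw [Finset.mul_sum, Finset.mul_sum, Finset.mul_sum]
        refine Finset.sum_congr rfl fun β _ => ?_
        ring
    _ = ENNReal.ofReal C * ∑ β ∈ B, cv (fun z => ‖FI (g β) z‖ₑ ^ (2 : ℝ)) (kw m R) x := by
        have h4 : ∀ β ∈ B, Measurable fun w => a w * ∫⁻ y, ‖FI (g β) (y, w)‖ₑ ^ (2 : ℝ) * p y := by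
          intro β hβ
          refine ham.mul ?_
          have h5 : Measurable fun z : X m => ‖FI (g β) z‖ₑ ^ (2 : ℝ) * p z.1 :=
            (hFm' β hβ).mul (hpm.comp measurable_fst)
          exact h5.lintegral_prod_left'
        rw [lintegral_const_mul _ (Finset.measurable_sum _ h4), lintegral_finsetSum _ h4]
        congr 1
        refine Finset.sum_congr rfl fun β hβ => ?_
        rw [key _ (hFm' β hβ)]

end Pool.Agent.H37.BD
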