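import Pool.Agent.H93.BD.Targets

/-!
Constancy of `u * pk * kw` along directions close to the plank direction (row UA of bdc_modules)
-/

set_option autoImplicit false

open MeasureTheory
open scoped ENNReal NNReal

namespace Pool.Agent.H37.BD

open Pool.Agent.H93.BD

theorem inv_pow_le {A B D : ℝ} (N : ℕ) (hA : 0 ≤ A) (hB : 0 ≤ B) (hD : 0 ≤ D) (h : A ≤ B + D) :
    ((1 + B) ^ N)⁻¹ ≤ (1 + D) ^ N * ((1 + A) ^ N)⁻¹ := by
  have h1 : 1 + A ≤ (1 + B) * (1 + D) := by nlinarith [mul_nonneg hB hD]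
  have h2 : (1 + A) ^ N ≤ (1 + B) ^ N * (1 + D) ^ N := by
    rw [← mul_pow]
    exact pow_le_pow_left₀ (by linarith) h1 N
  have h3 : 0 < (1 + A) ^ N := by positivity
  have h4 : 0 < (1 + B) ^ N := by positivity
  rw [← div_eq_mul_inv, le_div_iff₀ h3, inv_mul_le_iff₀ h4]
  exact h2

theorem gw_meas (m N : ℕ) (r1 r2 : ℝ) (c : E m) : Measurable (gw m N r1 r2 c) := by
  unfold gw
  fun_prop

theorem pk_shift {m : ℕ} {S : ℝ} (hS : 1 ≤ S) (c : E m) (z : X m) (t : ℝ) (ht : |t| ≤ 4 * S ^ 2) :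
    pk m S c (z + t • vv c) ≤ ENNReal.ofReal (5 ^ (3 * (m + 2))) * pk m S c z := by
  unfold pk gw
  rw [← ENNReal.ofReal_mul (by positivity)]
  apply ENNReal.ofReal_le_ofReal
  have hS0 : 0 < S := by linarith
  have h1 : (z + t • vv c).1 + (2 * (z + t • vv c).2) • c = z.1 + (2 * z.2) • c := by
    simp only [vv, Prod.fst_add, Prod.smul_fst, Prod.snd_add, Prod.smul_snd, smul_eq_mul, mul_one]
    module
  have h2 : (z + t • vv c).2 = z.2 + t := by
    simp [vv]
  rw [h1, h2]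
  have h3 : |z.2| / S ^ 2 ≤ |z.2 + t| / S ^ 2 + |t| / S ^ 2 := by
    rw [← add_div]
    gcongr
    have := abs_sub (z.2 + t) t
    rwa [add_sub_cancel_right] at this
  have h4 := inv_pow_le (3 * (m + 2)) (by positivity) (by positivity) (by positivity) h3
  have h5 : (1 + |t| / S ^ 2) ^ (3 * (m + 2)) ≤ 5 ^ (3 * (m + 2)) := by
    refine pow_le_pow_left₀ (by positivity) ?_ _
    have : |t| / S ^ 2 ≤ 4 := by
      rw [div_le_iff₀ (by positivity)]
      exact ht
    linarith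
  have h6 : ((1 + |z.2 + t| / S ^ 2) ^ (3 * (m + 2)))⁻¹ ≤
      5 ^ (3 * (m + 2)) * ((1 + |z.2| / S ^ 2) ^ (3 * (m + 2)))⁻¹ :=
    h4.trans (mul_le_mul_of_nonneg_right h5 (by positivity))
  calc (S ^ m * S ^ 2)⁻¹ * ((1 + ‖z.1 + (2 * z.2) • c‖ / S) ^ (3 * (m + 2)))⁻¹ *
        ((1 + |z.2 + t| / S ^ 2) ^ (3 * (m + 2)))⁻¹
      ≤ (S ^ m * S ^ 2)⁻¹ * ((1 + ‖z.1 + (2 * z.2) • c‖ / S) ^ (3 * (m + 2)))⁻¹ *
        (5 ^ (3 * (m + 2)) * ((1 + |z.2| / S ^ 2) ^ (3 * (m + 2)))⁻¹) :=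
        mul_le_mul_of_nonneg_left h6 (by positivity)
    _ = _ := by ring

theorem kw_shift {m : ℕ} {R : ℝ} (hR : 0 < R) (z : X m) (v : E m) (hv : ‖v‖ ≤ 8 * R) :
    kw m R (z + (v, 0)) ≤ ENNReal.ofReal (9 ^ (m + 2)) * kw m R z := by
  unfold kw gw
  rw [← ENNReal.ofReal_mul (by positivity)]
  apply ENNReal.ofReal_le_ofReal
  simp only [smul_zero, add_zero, Prod.fst_add, Prod.snd_add]
  have h3 : ‖z.1‖ / R ≤ ‖z.1 + v‖ / R + ‖v‖ / R := by
    rw [← add_div]
    gcongr
    have := norm_sub_le (z.1 + v) v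
    rwa [add_sub_cancel_right] at this
  have h4 := inv_pow_le (m + 2) (by positivity) (by positivity) (by positivity) h3
  have h5 : (1 + ‖v‖ / R) ^ (m + 2) ≤ 9 ^ (m + 2) := by
    refine pow_le_pow_left₀ (by positivity) ?_ _
    have : ‖v‖ / R ≤ 8 := by
      rw [div_le_iff₀ hR]
      exact hv
    linarith
  have h6 : ((1 + ‖z.1 + v‖ / R) ^ (m + 2))⁻¹ ≤
      9 ^ (m + 2) * ((1 + ‖z.1‖ / R) ^ (m + 2))⁻¹ :=
    h4.trans (mul_le_mul_of_nonneg_right h5 (by positivity))
  calc (R ^ m * R)⁻¹ * ((1 + ‖z.1 + v‖ / R) ^ (m + 2))⁻¹ * ((1 + |z.2| / R) ^ (m + 2))⁻¹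
      ≤ (R ^ m * R)⁻¹ * (9 ^ (m + 2) * ((1 + ‖z.1‖ / R) ^ (m + 2))⁻¹) *
          ((1 + |z.2| / R) ^ (m + 2))⁻¹ :=
        mul_le_mul_of_nonneg_right (mul_le_mul_of_nonneg_left h6 (by positivity)) (by positivity)
    _ = _ := by ring

theorem pf_UA (hCVA : T_CVA) : T_UA := by
  intro m R1
  refine ⟨5 ^ (3 * (m + 2)) * 9 ^ (m + 2), ?_, ?_⟩
  · have h1 : (1 : ℝ) ≤ 5 ^ (3 * (m + 2)) := one_le_pow₀ (by norm_num)
    have h2 : (1 : ℝ) ≤ 9 ^ (m + 2) := one_le_pow₀ (by norm_num)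
    nlinarith
  intro S R R' L hS hR hL hRL hRS c b _ _ hcb u hu x t ht
  have hL0 : 0 < L := by linarith
  -- the kernel
  have hpk : Measurable (pk m S c) := gw_meas _ _ _ _ _
  have hkw : Measurable (kw m R) := gw_meas _ _ _ _ _
  have hassoc : ∀ y, cv (cv u (pk m S c)) (kw m R) y = cv u (cv (pk m S c) (kw m R)) y := fun y =>
    (hCVA m u (pk m S c) (kw m R) hu hpk hkw).2.1 y
  have hv : t • vv b = t • vv c + (((2 * t) • (c - b) : E m), (0 : ℝ)) := by
    ext1
    · simp only [vv, Prod.smul_fst, Prod.fst_add]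
      module
    · simp [vv]
  have hv2 : ‖((2 * t) • (c - b) : E m)‖ ≤ 8 * R := by
    rw [norm_smul, Real.norm_eq_abs, abs_mul, abs_two]
    calc 2 * |t| * ‖c - b‖ ≤ 2 * (4 * R') * (1 / L) := by
          have : 0 ≤ R' := by
            have := (abs_nonneg t).trans ht
            linarith
          gcongr
      _ = 8 * (R' / L) := by ring
      _ ≤ 8 * R := by
          have : R' / L ≤ R := by
            rw [div_le_iff₀ hL0]
            linarith
          linarith
  have ht2 : |t| ≤ 4 * S ^ 2 := by linarith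
  have hK : ∀ y, cv (pk m S c) (kw m R) (y + t • vv b) ≤
      ENNReal.ofReal (5 ^ (3 * (m + 2)) * 9 ^ (m + 2)) * cv (pk m S c) (kw m R) y := by
    intro y
    unfold cv
    have h1 : (∫⁻ z, pk m S c z * kw m R (y + t • vv b - z)) =
        ∫⁻ z, pk m S c (z + t • vv c) * kw m R (y + t • vv b - (z + t • vv c)) := by
      have : (volume : Measure (X m)).IsAddRightInvariant :=
        inferInstanceAs
          (((volume : Measure (E m)).prod (volume : Measure ℝ)).IsAddRightInvariant)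
      exact (lintegral_add_right_eq_self (μ := (volume : Measure (X m)))
        (fun z => pk m S c z * kw m R (y + t • vv b - z)) (t • vv c)).symm
    rw [h1]
    have h2 : ∀ z, pk m S c (z + t • vv c) * kw m R (y + t • vv b - (z + t • vv c)) ≤
        ENNReal.ofReal (5 ^ (3 * (m + 2)) * 9 ^ (m + 2)) * (pk m S c z * kw m R (y - z)) := by
      intro z
      have h3 : y + t • vv b - (z + t • vv c) = (y - z) + (((2 * t) • (c - b) : E m), (0 : ℝ)) := by
        rw [hv]
        abel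
      rw [h3]
      calc pk m S c (z + t • vv c) * kw m R (y - z + ((2 * t) • (c - b), 0))
          ≤ (ENNReal.ofReal (5 ^ (3 * (m + 2))) * pk m S c z) *
            (ENNReal.ofReal (9 ^ (m + 2)) * kw m R (y - z)) :=
            mul_le_mul' (pk_shift hS c z t ht2) (kw_shift hR _ _ hv2)
        _ = _ := by
            rw [ENNReal.ofReal_mul (by positivity)]
            ring
    refine (lintegral_mono h2).trans (le_of_eq ?_)
    rw [lintegral_const_mul]
    exact hpk.mul (hkw.comp (measurable_const.sub measurable_id))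
  rw [hassoc, hassoc]
  have hKm : Measurable (cv (pk m S c) (kw m R)) :=
    (hCVA m (pk m S c) (kw m R) (kw m R) hpk hkw hkw).2.2.1
  have h5 : cv u (cv (pk m S c) (kw m R)) (x + t • vv b) =
      ∫⁻ z, u z * cv (pk m S c) (kw m R) (x - z + t • vv b) := by
    show (∫⁻ z, u z * cv (pk m S c) (kw m R) (x + t • vv b - z)) = _
    refine lintegral_congr fun z => ?_
    rw [show x + t • vv b - z = x - z + t • vv b by abel]
  rw [h5]
  calc (∫⁻ z, u z * cv (pk m S c) (kw m R) (x - z + t • vv b))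
      ≤ ∫⁻ z, ENNReal.ofReal (5 ^ (3 * (m + 2)) * 9 ^ (m + 2)) *
          (u z * cv (pk m S c) (kw m R) (x - z)) := by
        refine lintegral_mono fun z => ?_
        refine (mul_le_mul' le_rfl (hK _)).trans (le_of_eq ?_)
        ring
    _ = _ := by
        rw [lintegral_const_mul]
        · rfl
        · exact hu.mul (hKm.comp (measurable_const.sub measurable_id))

end Pool.Agent.H37.BD
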